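import Pool.Agent.W805.LR.Stm5

/-!
# PD-UA: cycle lengths of uniform permutations by stick breaking
-/

set_option autoImplicit false

namespace Pool.Agent.W193.PD.UA

open Finset Equiv Nat
open Pool.Agent.W805.PD

/-- The size of the centraliser for the multiset `s` of cycle lengths. -/
noncomputable def Z (s : Multiset ℕ) : ℝ :=
  (s.prod : ℝ) * ∏ n ∈ s.toFinset, ((s.count n)! : ℝ)

theorem prodT (s : Multiset ℕ) (T : Finset ℕ) (h : s.toFinset ⊆ T) :
    ∏ n ∈ s.toFinset, ((s.count n)! : ℝ) = ∏ n ∈ T, ((s.count n)! : ℝ) := by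
  refine Finset.prod_subset h ?_
  intro x _ hx
  have : s.count x = 0 := by
    rw [Multiset.count_eq_zero]
    intro h'; exact hx (Multiset.mem_toFinset.2 h')
  simp [this]

theorem Z_pos (s : Multiset ℕ) (hs : ∀ n ∈ s, 0 < n) : 0 < Z s := by
  unfold Z
  have h1 : 0 < s.prod := Multiset.prod_pos hs
  have h2 : 0 < ∏ n ∈ s.toFinset, ((s.count n)! : ℝ) :=
    Finset.prod_pos fun n _ => by exact_mod_cast Nat.factorial_pos _
  have h1' : (0 : ℝ) < (s.prod : ℝ) := by exact_mod_cast h1
  exact mul_pos h1' h2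

theorem Z_cons (p : ℕ) (t : Multiset ℕ) :
    Z (p ::ₘ t) = p * ((p ::ₘ t).count p : ℝ) * Z t := by
  unfold Z
  have hT : t.toFinset ⊆ (p ::ₘ t).toFinset := by
    intro x hx; simp only [Multiset.mem_toFinset, Multiset.mem_cons] at *; exact Or.inr hx
  rw [prodT t _ hT, Multiset.prod_cons]
  have key : ∀ n ∈ (p ::ₘ t).toFinset, (((p ::ₘ t).count n)! : ℝ) =
      ((t.count n)! : ℝ) * (if n = p then ((p ::ₘ t).count p : ℝ) else 1) := by
    intro n _
    by_cases h : n = p
    · subst h
      rw [if_pos rfl, Multiset.count_cons_self, Nat.factorial_succ]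
      push_cast; ring
    · rw [if_neg h, Multiset.count_cons_of_ne h, mul_one]
  rw [Finset.prod_congr rfl key, Finset.prod_mul_distrib, Finset.prod_ite_eq']
  have hp : p ∈ (p ::ₘ t).toFinset := by simp
  rw [if_pos hp]
  push_cast
  ring

/-- Weighted sum over partitions. -/
noncomputable def F (a : ℕ) (Φ : Multiset ℕ → ℝ) : ℝ :=
  ∑ μ : Nat.Partition a, Φ μ.parts / Z μ.parts

theorem F_succ (a : ℕ) (Φ : Multiset ℕ → ℝ) :
    (a + 1) * F (a + 1) Φ = ∑ l : Fin (a + 1), F (a - l.val) fun s => Φ ((l.val + 1) ::ₘ s) := by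
  have h1 : ∀ μ : Nat.Partition (a + 1), ((a : ℝ) + 1) * (Φ μ.parts / Z μ.parts) =
      ∑ p ∈ μ.parts.toFinset, Φ μ.parts / Z (μ.parts.erase p) := by
    intro μ
    have hs : ((a : ℝ) + 1) = ∑ p ∈ μ.parts.toFinset, ((μ.parts.count p : ℝ) * p) := by
      have := Finset.sum_multiset_count μ.parts
      rw [μ.parts_sum] at this
      have h' : ((a + 1 : ℕ) : ℝ) = ((∑ m ∈ μ.parts.toFinset, μ.parts.count m • m : ℕ) : ℝ) := by
        exact_mod_cast this
      push_cast at h'
      rw [h']
      refine Finset.sum_congr rfl fun p _ => ?_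
      simp
    rw [hs, Finset.sum_mul]
    refine Finset.sum_congr rfl fun p hp => ?_
    have hp' : p ∈ μ.parts := Multiset.mem_toFinset.1 hp
    have hc : p ::ₘ μ.parts.erase p = μ.parts := Multiset.cons_erase hp'
    have hZ : Z μ.parts = p * (μ.parts.count p : ℝ) * Z (μ.parts.erase p) := by
      have := Z_cons p (μ.parts.erase p)
      rw [hc] at this; exact this
    have hp0 : (p : ℝ) ≠ 0 := by
      have := μ.parts_pos hp'; positivity
    have hc0 : (μ.parts.count p : ℝ) ≠ 0 := by
      have := Multiset.count_pos.2 hp'; positivity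
    have hz0 : Z (μ.parts.erase p) ≠ 0 :=
      (Z_pos _ fun n hn => μ.parts_pos (Multiset.mem_of_mem_erase hn)).ne'
    rw [hZ]
    field_simp
  unfold F
  rw [Finset.mul_sum, Finset.sum_congr rfl fun μ _ => h1 μ, Finset.sum_sigma',
    Finset.sum_sigma']
  symm
  refine Finset.sum_bij (fun (x : (l : Fin (a + 1)) × Nat.Partition (a - l.val)) _ =>
    (⟨⟨(x.1.val + 1) ::ₘ x.2.parts, ?_, ?_⟩, x.1.val + 1⟩ :
      (_ : Nat.Partition (a + 1)) × ℕ)) ?_ ?_ ?_ ?_
  · intro i hi
    rcases Multiset.mem_cons.1 hi with h | h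
    · omega
    · exact x.2.parts_pos h
  · rw [Multiset.sum_cons, x.2.parts_sum]
    have := x.1.2
    omega
  · intro x _
    simp
  · rintro ⟨l, ν⟩ _ ⟨l', ν'⟩ _ h
    simp only [Sigma.mk.injEq, heq_eq_eq] at h
    obtain ⟨h1, h2⟩ := h
    have hl : l = l' := Fin.ext (by omega)
    subst hl
    have h3 := congrArg Nat.Partition.parts h1
    simp only at h3
    have h4 := (Multiset.cons_inj_right _).1 h3
    have : ν = ν' := Nat.Partition.ext h4
    rw [this]
  · rintro ⟨μ, p⟩ h
    simp only [Finset.mem_sigma, Finset.mem_univ, Multiset.mem_toFinset, true_and] at h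
    have hp := μ.parts_pos h
    have hsum : p + (μ.parts.erase p).sum = a + 1 := by
      have := congrArg Multiset.sum (Multiset.cons_erase h)
      rw [Multiset.sum_cons, μ.parts_sum] at this
      exact this
    refine ⟨⟨⟨p - 1, by omega⟩, ⟨μ.parts.erase p, ?_, ?_⟩⟩, by simp, ?_⟩
    · intro i hi; exact μ.parts_pos (Multiset.mem_of_mem_erase hi)
    · simp only; omega
    · have hp1 : p - 1 + 1 = p := by omega
      simp only [Sigma.mk.injEq, heq_eq_eq]
      refine ⟨?_, hp1⟩
      apply Nat.Partition.ext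
      simp only [hp1]
      exact Multiset.cons_erase h
  · rintro ⟨l, ν⟩ _
    simp

theorem F_zero (Φ : Multiset ℕ → ℝ) : F 0 Φ = Φ 0 := by
  unfold F
  rw [Fintype.sum_unique]
  have : (default : Nat.Partition 0).parts = 0 := by
    simp
  rw [this]
  simp [Z]

theorem F_eq_stick (a : ℕ) : ∀ Φ : Multiset ℕ → ℝ, F a Φ = stick a Φ := by
  induction a using Nat.strong_induction_on with
  | _ a ih =>
    intro Φ
    cases a with
    | zero => rw [F_zero, stick]
    | succ a =>
      rw [stick]
      have h := F_succ a Φ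
      have h' : ∑ l : Fin (a + 1), F (a - l.val) (fun s => Φ ((l.val + 1) ::ₘ s)) =
          ∑ l : Fin (a + 1), stick (a - l.val) fun s => Φ ((l.val + 1) ::ₘ s) :=
        Finset.sum_congr rfl fun l _ => ih _ (by omega) _
      rw [← h', ← h]
      have : ((a : ℝ) + 1) ≠ 0 := by positivity
      field_simp

section perm

variable {α : Type} [Fintype α] [DecidableEq α]

theorem parts_split {n : ℕ} (μ : Nat.Partition n) :
    μ.parts = (μ.parts.filter fun k => 2 ≤ k) +
      Multiset.replicate (n - (μ.parts.filter fun k => 2 ≤ k).sum) 1 := by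
  have h1 := Multiset.filter_add_not (fun k => 2 ≤ k) μ.parts
  have h2 : (μ.parts.filter fun k => ¬ 2 ≤ k) =
      Multiset.replicate (Multiset.card (μ.parts.filter fun k => ¬ 2 ≤ k)) 1 := by
    rw [Multiset.eq_replicate_card]
    intro b hb
    rw [Multiset.mem_filter] at hb
    have := μ.parts_pos hb.1
    omega
  have h3 : n = (μ.parts.filter fun k => 2 ≤ k).sum +
      Multiset.card (μ.parts.filter fun k => ¬ 2 ≤ k) := by
    have h4 := congrArg Multiset.sum h1
    rw [Multiset.sum_add, μ.parts_sum, h2, Multiset.sum_replicate] at h4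
    simp only [smul_eq_mul, mul_one] at h4
    exact h4.symm
  have h5 : n - (μ.parts.filter fun k => 2 ≤ k).sum =
      Multiset.card (μ.parts.filter fun k => ¬ 2 ≤ k) := by omega
  rw [h5, ← h2, h1]

theorem part_eq_iff (σ : Perm α) (μ : Nat.Partition (Fintype.card α)) :
    σ.partition = μ ↔ σ.cycleType = μ.parts.filter fun k => 2 ≤ k := by
  constructor
  · rintro rfl
    exact Equiv.Perm.filter_parts_partition_eq_cycleType.symm
  · intro h
    apply Nat.Partition.ext
    rw [Equiv.Perm.parts_partition, ← Equiv.Perm.sum_cycleType, h]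
    exact (parts_split μ).symm

theorem card_part (μ : Nat.Partition (Fintype.card α)) :
    ((Finset.univ.filter fun σ : Perm α => σ.partition = μ).card : ℝ) * Z μ.parts =
      (Fintype.card α)! := by
  have h1 : (Finset.univ.filter fun σ : Perm α => σ.partition = μ) =
      (Finset.univ.filter fun σ : Perm α => σ.cycleType = μ.parts.filter fun k => 2 ≤ k) := by
    ext σ; simp only [Finset.mem_filter, Finset.mem_univ, true_and]; exact part_eq_iff σ μ
  rw [h1]
  set m := μ.parts.filter fun k => 2 ≤ k with hm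
  have hsum : m.sum ≤ Fintype.card α := by
    have h4 := congrArg Multiset.sum (Multiset.filter_add_not (fun k => 2 ≤ k) μ.parts)
    rw [Multiset.sum_add, μ.parts_sum] at h4
    rw [← hm] at h4; omega
  have h2 := Equiv.Perm.card_of_cycleType_mul_eq α m
  rw [if_pos ⟨hsum, fun a ha => by rw [hm, Multiset.mem_filter] at ha; exact ha.2⟩] at h2
  have h3 : Z μ.parts = (((Fintype.card α - m.sum)! * m.prod *
      (∏ n ∈ m.toFinset, (m.count n)!) : ℕ) : ℝ) := by
    unfold Z
    have hsp := parts_split μ
    rw [← hm] at hsp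
    set k := Fintype.card α - m.sum with hk
    have h1m : (1 : ℕ) ∉ m := by
      intro h; rw [hm, Multiset.mem_filter] at h; omega
    have hT : μ.parts.toFinset ⊆ insert 1 m.toFinset := by
      intro x hx
      rw [Multiset.mem_toFinset, hsp, Multiset.mem_add] at hx
      rcases hx with h | h
      · exact Finset.mem_insert_of_mem (Multiset.mem_toFinset.2 h)
      · rw [Multiset.eq_of_mem_replicate h]; exact Finset.mem_insert_self _ _
    rw [prodT _ _ hT, Finset.prod_insert (by rw [Multiset.mem_toFinset]; exact h1m)]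
    have hc1 : μ.parts.count 1 = k := by
      rw [hsp, Multiset.count_add, Multiset.count_replicate_self, Multiset.count_eq_zero.2 h1m,
        zero_add]
    have hcn : ∀ n ∈ m.toFinset, ((μ.parts.count n)! : ℝ) = ((m.count n)! : ℝ) := by
      intro n hn
      have hn1 : n ≠ 1 := by
        rintro rfl; exact h1m (Multiset.mem_toFinset.1 hn)
      rw [hsp, Multiset.count_add, Multiset.count_replicate, if_neg (fun h => hn1 h.symm), add_zero]
    have hpr : μ.parts.prod = m.prod := by
      rw [hsp, Multiset.prod_add, Multiset.prod_replicate, one_pow, mul_one]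
    rw [Finset.prod_congr rfl hcn, hc1, hpr]
    push_cast
    ring
  rw [h3]
  exact_mod_cast h2

theorem uavg_perm (Φ : Multiset ℕ → ℝ) :
    uavg (fun σ : Perm α => Φ σ.partition.parts) = F (Fintype.card α) Φ := by
  unfold uavg F
  rw [Fintype.card_perm]
  have h1 : ∑ σ : Perm α, Φ σ.partition.parts =
      ∑ μ : Nat.Partition (Fintype.card α),
        ((Finset.univ.filter fun σ : Perm α => σ.partition = μ).card : ℝ) * Φ μ.parts := by
    rw [← Finset.sum_fiberwise Finset.univ (fun σ : Perm α => σ.partition)]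
    refine Finset.sum_congr rfl fun μ _ => ?_
    rw [Finset.sum_congr rfl (g := fun _ => Φ μ.parts)
      (fun σ hσ => by rw [(Finset.mem_filter.1 hσ).2]), Finset.sum_const, nsmul_eq_mul]
  rw [h1, Finset.sum_div]
  refine Finset.sum_congr rfl fun μ _ => ?_
  have h2 := card_part μ
  have hz : Z μ.parts ≠ 0 := (Z_pos _ fun n hn => μ.parts_pos hn).ne'
  rw [← h2]
  have hc : ((Finset.univ.filter fun σ : Perm α => σ.partition = μ).card : ℝ) ≠ 0 := by
    intro h
    rw [h, zero_mul] at h2
    have : (0 : ℝ) < ((Fintype.card α)! : ℝ) := by exact_mod_cast Nat.factorial_pos _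
    rw [← h2] at this
    exact lt_irrefl _ this
  field_simp

end perm

theorem main : S_UA := by
  intro a Φ
  have h := uavg_perm (α := Fin a) Φ
  rw [h, Fintype.card_fin, F_eq_stick]

end Pool.Agent.W193.PD.UA
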